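import Mathlib

set_option autoImplicit false

open MeasureTheory Filter Topology

namespace Pool.Agent.Results.MP_12ef09_al.InfiniteRank

/-- The vertices of level `k` of the spherically homogeneous rooted tree with branching sequence
`m`: a vertex of level `k` is the list of the choices of children on the path from the root. -/
abbrev Level (m : ℕ → ℕ) (k : ℕ) : Type := ∀ i : Fin k, Fin (m i)

/-- The parent of a vertex of level `k + 1`. -/
def parent {m : ℕ → ℕ} {k : ℕ} (x : Level m (k + 1)) : Level m k := fun i => x i.castSucc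

/-- The finite permutation groups of the levels carry the discrete topology. -/
instance levelTop (m : ℕ → ℕ) (k : ℕ) : TopologicalSpace (Equiv.Perm (Level m k)) := ⊥

instance levelDisc (m : ℕ → ℕ) (k : ℕ) : DiscreteTopology (Equiv.Perm (Level m k)) := ⟨rfl⟩

/-- The product of the permutation groups of the levels, with the product topology. -/
abbrev Prd (m : ℕ → ℕ) : Type := ∀ k : ℕ, Equiv.Perm (Level m k)

/-- `Aut(T)`: the sequences of permutations of the levels that are compatible with parents. -/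
def AutT (m : ℕ → ℕ) : Subgroup (Prd m) where
  carrier := {g | ∀ (k : ℕ) (x : Level m (k + 1)), parent (g (k + 1) x) = g k (parent x)}
  one_mem' := fun _ _ => rfl
  mul_mem' := by
    intro a b ha hb k x
    rw [Pi.mul_apply, Pi.mul_apply, Equiv.Perm.mul_apply, Equiv.Perm.mul_apply, ha, hb]
  inv_mem' := by
    intro a ha k x
    rw [Pi.inv_apply, Pi.inv_apply, Equiv.Perm.eq_inv_iff_eq, ← ha]
    exact congrArg parent ((a (k + 1)).apply_symm_apply x)

/-- `π_k(H)`: the restriction of `H` to level `k`. -/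
def lev {m : ℕ → ℕ} (H : Subgroup (Prd m)) (k : ℕ) : Subgroup (Equiv.Perm (Level m k)) :=
  H.map (Pi.evalMonoidHom _ k)

/-- `p_k(H)`: the proportion of the elements of `π_k(H)` that fix a vertex of level `k`. -/
noncomputable def prop {m : ℕ → ℕ} (H : Subgroup (Prd m)) (k : ℕ) : ℝ :=
  (Nat.card {h : Equiv.Perm (Level m k) // h ∈ lev H k ∧ ∃ v, h v = v} : ℝ) / Nat.card (lev H k)

/-- `r` is the fixed-point proportion `FPP(H)`. -/
def IsFPP {m : ℕ → ℕ} (H : Subgroup (Prd m)) (r : ℝ) : Prop :=
  Tendsto (prop H) atTop (𝓝 r)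

/-- The group generated by a tuple of elements of `G`. -/
def gen {m : ℕ → ℕ} {G : Subgroup (Prd m)} {n : ℕ} (g : Fin n → G) : Subgroup (Prd m) :=
  Subgroup.closure (Set.range fun i => (g i : Prd m))

/-- Addition of the vector `a` on the levels of the binary tree. -/
def psi : Multiplicative (ℕ → Fin 2) →* Prd (fun _ => 2) where
  toFun a := fun k =>
    { toFun := fun x i => a.toAdd i + x i
      invFun := fun x i => - a.toAdd i + x i
      left_inv := fun x => by ext1 i; simp
      right_inv := fun x => by ext1 i; simp }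
  map_one' := by
    funext k
    apply Equiv.ext
    intro x
    funext i
    simp
  map_mul' a b := by
    funext k
    apply Equiv.ext
    intro x
    funext i
    simp [add_assoc]

theorem psi_apply (a : Multiplicative (ℕ → Fin 2)) (k : ℕ) (x : Level (fun _ => 2) k) (i : Fin k) :
    psi a k x i = a.toAdd i + x i := rfl

/-- The group. -/
def GG : Subgroup (Prd (fun _ => 2)) := psi.range

theorem GG_le : GG ≤ AutT (fun _ => 2) := by
  rintro _ ⟨a, rfl⟩ k x
  rfl

theorem psi_cont : Continuous (fun a : ℕ → Fin 2 => psi (Multiplicative.ofAdd a)) := by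
  apply continuous_pi
  intro k
  apply continuous_discrete_rng.mpr
  intro b
  rw [isOpen_iff_forall_mem_open]
  intro a ha
  refine ⟨{c | ∀ i : Fin k, c i = a i}, ?_, ?_, fun _ => rfl⟩
  · intro c hc
    rw [Set.mem_preimage, Set.mem_singleton_iff] at ha ⊢
    rw [← ha]
    apply Equiv.ext
    intro x
    funext i
    rw [psi_apply, psi_apply, toAdd_ofAdd, toAdd_ofAdd, hc i]
  · have e : {c : ℕ → Fin 2 | ∀ i : Fin k, c i = a i} =
        ⋂ i : Fin k, (fun c : ℕ → Fin 2 => c i) ⁻¹' {a i} := by
      ext c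
      simp
    rw [e]
    apply isOpen_iInter_of_finite
    intro i
    exact (isOpen_discrete _).preimage (continuous_apply (i : ℕ))

theorem GG_closed : IsClosed (GG : Set (Prd (fun _ => 2))) := by
  have h : (GG : Set (Prd (fun _ => 2))) =
      Set.range (fun a : ℕ → Fin 2 => psi (Multiplicative.ofAdd a)) := by
    ext g
    constructor
    · rintro ⟨a, rfl⟩
      exact ⟨a.toAdd, rfl⟩
    · rintro ⟨a, rfl⟩
      exact ⟨_, rfl⟩
  rw [h]
  exact (isCompact_range psi_cont).isClosed

theorem fix_one {a : Multiplicative (ℕ → Fin 2)} {k : ℕ} {v : Level (fun _ => 2) k}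
    (h : psi a k v = v) : psi a k = 1 := by
  apply Equiv.ext
  intro x
  funext i
  have h1 := congrFun h i
  rw [psi_apply, add_eq_right] at h1
  rw [psi_apply, h1, zero_add]
  rfl

theorem prop_eq {H : Subgroup (Prd (fun _ => 2))} (hH : H ≤ GG) (k : ℕ) :
    prop H k = 1 / Nat.card (lev H k) := by
  unfold prop
  congr 1
  have : Nat.card {h : Equiv.Perm (Level (fun _ => 2) k) // h ∈ lev H k ∧ ∃ v, h v = v} = 1 := by
    rw [Nat.card_eq_one_iff_unique]
    refine ⟨⟨?_⟩, ⟨⟨1, (lev H k).one_mem, fun _ => 0, rfl⟩⟩⟩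
    have key : ∀ h : Equiv.Perm (Level (fun _ => 2) k), (h ∈ lev H k ∧ ∃ v, h v = v) → h = 1 := by
      rintro h ⟨⟨g, hg, rfl⟩, v, hv⟩
      obtain ⟨a, rfl⟩ := hH hg
      exact fix_one hv
    rintro ⟨h, hh⟩ ⟨h', hh'⟩
    rw [Subtype.mk.injEq, key h hh, key h' hh']
  rw [this, Nat.cast_one]

theorem card_lev (k : ℕ) : 2 ^ k ≤ Nat.card (lev GG k) := by
  let f : (Fin k → Fin 2) → lev GG k := fun a =>
    ⟨psi (Multiplicative.ofAdd (fun i => if h : i < k then a ⟨i, h⟩ else 0)) k,
      Subgroup.mem_map.mpr ⟨psi _, MonoidHom.mem_range.mpr ⟨_, rfl⟩, rfl⟩⟩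
  have hf : Function.Injective f := by
    intro a b hab
    have h1 := congrArg (fun z : lev GG k => (z : Equiv.Perm (Level (fun _ => 2) k)) (fun _ => 0)) hab
    funext i
    have h2 := congrFun h1 i
    simp only [f, psi_apply, toAdd_ofAdd, add_zero, Fin.is_lt, dite_true, Fin.eta] at h2
    exact h2
  have := Nat.card_le_card_of_injective f hf
  simpa using this

theorem prop_GG : Tendsto (prop GG) atTop (𝓝 0) := by
  have h1 : Tendsto (fun k : ℕ => (1 / 2 : ℝ) ^ k) atTop (𝓝 0) :=
    tendsto_pow_atTop_nhds_zero_of_lt_one (by norm_num) (by norm_num)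
  refine squeeze_zero (fun k => ?_) (fun k => ?_) h1
  · rw [prop_eq le_rfl]
    positivity
  · rw [prop_eq le_rfl, one_div_pow]
    apply one_div_le_one_div_of_le (by positivity)
    exact_mod_cast card_lev k

theorem gen_le {n : ℕ} (g : Fin n → GG) : gen g ≤ GG := by
  unfold gen
  rw [Subgroup.closure_le]
  rintro _ ⟨i, rfl⟩
  exact (g i).2

theorem gen_finite {n : ℕ} (g : Fin n → GG) : Finite (gen g) := by
  choose a ha using fun i => (g i).2
  have h1 : gen g = (Subgroup.closure (Set.range a)).map psi := by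
    rw [MonoidHom.map_closure, ← Set.range_comp]
    unfold gen
    congr 2
    funext i
    exact (ha i).symm
  have h2 : Group.FG (Subgroup.closure (Set.range a)) := by
    rw [Group.fg_iff_subgroup_fg, Subgroup.fg_iff]
    exact ⟨Set.range a, rfl, Set.finite_range a⟩
  have h3 : IsMulTorsion (Subgroup.closure (Set.range a)) := by
    intro x
    rw [isOfFinOrder_iff_pow_eq_one]
    refine ⟨2, by norm_num, ?_⟩
    apply Subtype.ext
    apply Multiplicative.toAdd.injective
    funext i
    rw [Subgroup.coe_pow, toAdd_pow]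
    change 2 • ((x : Multiplicative (ℕ → Fin 2)).toAdd i) = 0
    generalize (x : Multiplicative (ℕ → Fin 2)).toAdd i = y
    revert y
    decide
  have h4 : Finite (Subgroup.closure (Set.range a)) := CommGroup.finite_of_fg_isMulTorsion _ h3
  rw [h1]
  exact Set.Finite.image psi (Set.toFinite (Subgroup.closure (Set.range a) : Set _)) |>.to_subtype

theorem lev_mono {H : Subgroup (Prd (fun _ => 2))} (hH : H ≤ AutT _) (k : ℕ) :
    Nat.card (lev H k) ≤ Nat.card (lev H (k + 1)) := by
  have hch : ∀ h : lev H (k + 1), ∃ g ∈ H, g (k + 1) = (h : Equiv.Perm (Level (fun _ => 2) (k + 1))) := by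
    rintro ⟨_, g, hg, rfl⟩
    exact ⟨g, hg, rfl⟩
  choose c hc1 hc2 using hch
  let f : lev H (k + 1) → lev H k := fun h => ⟨c h k, Subgroup.mem_map_of_mem (Pi.evalMonoidHom _ k) (hc1 h)⟩
  apply Nat.card_le_card_of_surjective f
  rintro ⟨_, g, hg, rfl⟩
  refine ⟨⟨g (k + 1), Subgroup.mem_map_of_mem (Pi.evalMonoidHom _ (k + 1)) hg⟩, ?_⟩
  apply Subtype.ext
  apply Equiv.ext
  intro x
  have h1 := hc2 ⟨g (k + 1), Subgroup.mem_map_of_mem (Pi.evalMonoidHom _ (k + 1)) hg⟩
  let y : Level (fun _ => 2) (k + 1) := fun i => if h : (i : ℕ) < k then x ⟨i, h⟩ else 0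
  have hy : parent y = x := by
    funext i
    simp [parent, y]
  change c _ k x = g k x
  rw [← hy, ← hH (hc1 _), ← hH hg, h1]

/-- The statement: there is a closed subgroup `G` of the automorphism group of a spherically
homogeneous rooted tree with `FPP(G) = 0` such that `FPP(H) > 0` for every `n` and every `n`-tuple
of elements of `G`, generating `H`; for every `n` the set of `n`-tuples with `FPP(H) > 0` has
measure `1` for the product of the Haar probability measures. -/
theorem result : ∃ (m : ℕ → ℕ) (_ : ∀ k, 2 ≤ m k) (G : Subgroup (Prd m)) (_ : G ≤ AutT m)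
    (_ : IsClosed (G : Set (Prd m))), IsFPP G 0 ∧
    (∀ (n : ℕ) (g : Fin n → G), ∃ r : ℝ, 0 < r ∧ IsFPP (gen g) r) ∧
    ∀ (n : ℕ) [MeasurableSpace G] [BorelSpace G] (μ : Measure G) [μ.IsHaarMeasure]
      [IsProbabilityMeasure μ],
      (Measure.pi fun _ : Fin n => μ) {g | ∃ r : ℝ, 0 < r ∧ IsFPP (gen g) r} = 1 := by
  have main : ∀ (n : ℕ) (g : Fin n → GG), ∃ r : ℝ, 0 < r ∧ IsFPP (gen g) r := by
    intro n g
    have hfin := gen_finite g
    have hle := gen_le g
    have hanti : Antitone (prop (gen g)) := by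
      apply antitone_nat_of_succ_le
      intro k
      rw [prop_eq hle, prop_eq hle]
      apply one_div_le_one_div_of_le
      · exact_mod_cast Nat.card_pos
      · exact_mod_cast lev_mono (hle.trans GG_le) k
    have hbd : ∀ k, 1 / (Nat.card (gen g) : ℝ) ≤ prop (gen g) k := by
      intro k
      rw [prop_eq hle]
      apply one_div_le_one_div_of_le
      · exact_mod_cast Nat.card_pos
      · have : Nat.card (lev (gen g) k) ≤ Nat.card (gen g) := by
          apply Nat.card_le_card_of_surjective (fun h : gen g =>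
            (⟨(h : Prd _) k, Subgroup.mem_map_of_mem (Pi.evalMonoidHom _ k) h.2⟩ : lev (gen g) k))
          rintro ⟨_, h, hh, rfl⟩
          exact ⟨⟨h, hh⟩, rfl⟩
        exact_mod_cast this
    have hb : BddBelow (Set.range (prop (gen g))) := by
      refine ⟨1 / (Nat.card (gen g) : ℝ), ?_⟩
      rintro _ ⟨k, rfl⟩
      exact hbd k
    refine ⟨⨅ k, prop (gen g) k, ?_, tendsto_atTop_ciInf hanti hb⟩
    have hpos : 0 < 1 / (Nat.card (gen g) : ℝ) := by
      have : 0 < Nat.card (gen g) := Nat.card_pos
      positivity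
    exact lt_of_lt_of_le hpos (le_ciInf hbd)
  refine ⟨fun _ => 2, fun _ => le_rfl, GG, GG_le, GG_closed, prop_GG, main, ?_⟩
  intro n _ _ μ _ _
  have : {g : Fin n → GG | ∃ r : ℝ, 0 < r ∧ IsFPP (gen g) r} = Set.univ :=
    Set.eq_univ_of_forall (main n)
  rw [this]
  exact measure_univ

end Pool.Agent.Results.MP_12ef09_al.InfiniteRank
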